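import Pool.Agent.H3Lat.Graph

/-!
# The number of finite lattices and bipartite graphs without 4-cycles

`log L(n)` is asymptotic to the logarithm of the number of bipartite graphs without 4-cycles on
`n` labelled vertices.
-/

set_option autoImplicit false

open Finset Filter Topology

namespace Pool.Agent.H3Lat.Old.HeightTwoReduction

open Pool.Agent.H3Lat

theorem log_bip_le {ε : ℝ} (hε : 0 < ε) : ∀ᶠ n : ℕ in atTop,
    Real.log (bipC4Count n : ℝ) ≤ Real.log (maxC4 n : ℝ) + ε * ((n : ℝ) * √n) := by
  filter_upwards [linear_le (Real.log 2) hε] with n h2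
  have h1 : bipC4Count n ≤ 2 ^ n * maxC4 n := by
    refine (bipC4Count_le n).trans ?_
    calc ∑ A : Finset (Fin n), (fam A Aᶜ).card ≤ ∑ _A : Finset (Fin n), maxC4 n := by
          refine sum_le_sum fun A _ => (card_fam_le A Aᶜ).trans (le_maxC4 ?_)
          rw [card_add_card_compl, Fintype.card_fin]
      _ = 2 ^ n * maxC4 n := by
          rw [sum_const, card_univ, Fintype.card_finset, Fintype.card_fin, smul_eq_mul]
  have h3 : 0 < bipC4Count n := (maxC4_pos n).trans_le (maxC4_le_bip n)
  have h4 : Real.log (bipC4Count n : ℝ) ≤ Real.log ((2 : ℝ) ^ n * maxC4 n) :=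
    Real.log_le_log (by exact_mod_cast h3) (by exact_mod_cast h1)
  have hm : (0 : ℝ) < maxC4 n := by exact_mod_cast maxC4_pos n
  rw [Real.log_mul (by positivity) hm.ne', Real.log_pow] at h4
  linarith

theorem result : Tendsto
    (fun n : ℕ => Real.log (latticeCount n : ℝ) / Real.log (bipC4Count n : ℝ)) atTop (𝓝 1) := by
  rw [Metric.tendsto_nhds]
  intro ε hε
  filter_upwards [lattice_upper (show 0 < ε / 160 by linarith),
    lattice_lower (show 0 < ε / 160 by linarith), log_bip_le (show 0 < ε / 160 by linarith),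
    maxC4_lower, eventually_ge_atTop 1] with n h1 h2 h3 h4 h5
  have hn : (0 : ℝ) < (n : ℝ) * √n := by
    have : (0 : ℝ) < n := by exact_mod_cast h5
    positivity
  have hm : (0 : ℝ) < maxC4 n := by exact_mod_cast maxC4_pos n
  have h6 : Real.log (maxC4 n : ℝ) ≤ Real.log (bipC4Count n : ℝ) :=
    Real.log_le_log hm (by exact_mod_cast maxC4_le_bip n)
  have h7 : 0 < Real.log (bipC4Count n : ℝ) := by nlinarith
  rw [Real.dist_eq, div_sub_one h7.ne', abs_div, abs_of_pos h7, div_lt_iff₀ h7, abs_lt]
  constructor <;> nlinarith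

end Pool.Agent.H3Lat.Old.HeightTwoReduction
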