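import Pool.Agent.H3Lat.Final

/-!
# An improved upper bound for the number of finite lattices

For all large `n` there are at most `1.7 ^ (n ^ (3/2))` lattices with `n + 2` elements, up to
isomorphism.
-/

set_option autoImplicit false

open Finset Filter Topology

namespace Pool.Agent.H3Lat.Old.UpperBoundConstant

open Pool.Agent.H3Lat

theorem result : ∀ᶠ n : ℕ in atTop,
    (latticeCount n : ℝ) ≤ (17 / 10 : ℝ) ^ ((n : ℝ) ^ (3 / 2 : ℝ)) := by
  -- room in the numerical inequality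
  have hc := final_const
  set c : ℝ := 4 / 3 * 1.1255 * (1 / 4 : ℝ) ^ (3 / 4 : ℝ) with hcdef
  have hc0 : 0 < c := by positivity
  obtain ⟨ε, hε, hε1, hεc⟩ : ∃ ε : ℝ, 0 < ε ∧ ε ≤ 1 ∧
      ((1 + ε) * c + 2 * ε) * (1 + ε) ≤ Real.log 1.7 := by
    have hcont : Tendsto (fun ε : ℝ => ((1 + ε) * c + 2 * ε) * (1 + ε)) (𝓝[>] 0)
        (𝓝 (((1 + 0) * c + 2 * 0) * (1 + 0))) := by
      apply tendsto_nhdsWithin_of_tendsto_nhds
      apply Continuous.tendsto
      fun_prop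
    have h1 : ((1 + 0) * c + 2 * 0) * (1 + 0) < Real.log 1.7 := by linarith
    have h2 := hcont.eventually (gt_mem_nhds h1)
    have h3 : ∀ᶠ ε : ℝ in 𝓝[>] 0, 0 < ε := eventually_mem_nhdsWithin
    have h4 : ∀ᶠ ε : ℝ in 𝓝[>] 0, ε ≤ 1 :=
      eventually_nhdsWithin_of_eventually_nhds (eventually_le_nhds (by norm_num))
    obtain ⟨ε, h5, h6, h7⟩ := (h2.and (h3.and h4)).exists
    exact ⟨ε, h6, h7, h5.le⟩
  have e1 := (tendsto_add_atTop_nat 2).eventually (log_latOn_le hε)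
  have e2 := (tendsto_add_atTop_nat 2).eventually
    (main_count (M := 1.1255) (by norm_num) (fun s hs => const_ineq hs) hε)
  filter_upwards [e1, e2, shift_le hε, eventually_ge_atTop 1] with n h1 h2 h3 hn
  have hN0 : (0 : ℝ) ≤ ((n + 2 : ℕ) : ℝ) := by positivity
  have h4 : Real.log (Nat.card (LatOn (Fin (n + 2))) : ℝ)
      ≤ ((1 + ε) * c + 2 * ε) * (((n + 2 : ℕ) : ℝ) * √((n + 2 : ℕ) : ℝ)) := by
    have h5 := h1 ((1 + ε) * c * (((n + 2 : ℕ) : ℝ) * √((n + 2 : ℕ) : ℝ))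
      + ε * (((n + 2 : ℕ) : ℝ) * √((n + 2 : ℕ) : ℝ))) (fun A => by
        have h6 := h2 (Fin (n + 2)) (Fin (n + 2)) A Aᶜ
          ((card_le_univ A).trans (Fintype.card_fin _).le)
          ((card_le_univ _).trans (Fintype.card_fin _).le)
        refine h6.trans ?_
        have h7 : ((A.card : ℝ) * (Aᶜ.card : ℝ)) ^ (3 / 4 : ℝ)
            ≤ (1 / 4 : ℝ) ^ (3 / 4 : ℝ) * (((n + 2 : ℕ) : ℝ) * √((n + 2 : ℕ) : ℝ)) := by
          have h8 : (A.card : ℝ) * (Aᶜ.card : ℝ) ≤ 1 / 4 * ((n + 2 : ℕ) : ℝ) ^ 2 := by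
            have h9 : ((A.card : ℝ) + (Aᶜ.card : ℝ)) = ((n + 2 : ℕ) : ℝ) := by
              have := card_add_card_compl A
              rw [Fintype.card_fin] at this
              exact_mod_cast this
            rw [← h9]
            nlinarith [sq_nonneg ((A.card : ℝ) - (Aᶜ.card : ℝ))]
          have h10 : (((n + 2 : ℕ) : ℝ) ^ 2) ^ (3 / 4 : ℝ)
              = ((n + 2 : ℕ) : ℝ) * √((n + 2 : ℕ) : ℝ) := by
            rw [Real.sqrt_eq_rpow, ← Real.rpow_natCast, ← Real.rpow_mul hN0]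
            nth_rewrite 2 [← Real.rpow_one ((n + 2 : ℕ) : ℝ)]
            rw [← Real.rpow_add (by positivity)]
            norm_num
          rw [← h10, ← Real.mul_rpow (by norm_num) (by positivity)]
          exact Real.rpow_le_rpow (by positivity) h8 (by norm_num)
        have h11 := mul_le_mul_of_nonneg_left h7
          (show (0 : ℝ) ≤ (1 + ε) * (4 / 3 * 1.1255) by positivity)
        have h12 : (1 + ε) * (4 / 3 * 1.1255) *
            ((1 / 4 : ℝ) ^ (3 / 4 : ℝ) * (((n + 2 : ℕ) : ℝ) * √((n + 2 : ℕ) : ℝ)))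
            = (1 + ε) * c * (((n + 2 : ℕ) : ℝ) * √((n + 2 : ℕ) : ℝ)) := by
          rw [hcdef]; ring
        rw [h12] at h11
        linarith)
    linarith
  have h13 : Real.log (Nat.card (LatOn (Fin (n + 2))) : ℝ) ≤ Real.log 1.7 * ((n : ℝ) * √n) := by
    have h14 := mul_le_mul_of_nonneg_left h3
      (show (0 : ℝ) ≤ (1 + ε) * c + 2 * ε by positivity)
    have h15 := mul_le_mul_of_nonneg_right hεc (show (0 : ℝ) ≤ (n : ℝ) * √n by positivity)
    linarith
  have h16 : 0 < Nat.card (LatOn (Fin (n + 2))) := (maxC4_pos n).trans_le (maxC4_le_latOn n)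
  have h17 : (latticeCount n : ℝ) ≤ (Nat.card (LatOn (Fin (n + 2))) : ℝ) := by
    exact_mod_cast quot_le (Fin (n + 2))
  refine h17.trans ?_
  rw [Real.rpow_def_of_pos (by norm_num), ← Real.log_le_iff_le_exp (by exact_mod_cast h16)]
  have h18 : (n : ℝ) ^ (3 / 2 : ℝ) = (n : ℝ) * √n := by
    have hn0 : (0 : ℝ) < n := by exact_mod_cast hn
    rw [Real.sqrt_eq_rpow]
    nth_rewrite 2 [← Real.rpow_one (n : ℝ)]
    rw [← Real.rpow_add hn0]
    norm_num
  rw [h18, show (17 / 10 : ℝ) = 1.7 by norm_num]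
  exact h13

end Pool.Agent.H3Lat.Old.UpperBoundConstant
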